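import Mathlib

/-!
A Hausdorff space that is strategically k-Menger but not k-Rothberger: the unit interval with the
topology whose open sets are the differences of a Euclidean open set and a countable set.
-/

namespace Pool.Agent.Results.MP_c24ba3_gt.IntervalModCountable

open Set Topology

/-- An open cover such that every compact set lies in a member (the whole space is allowed as a
member). -/
def IsKCover {X : Type} [TopologicalSpace X] (𝒰 : Set (Set X)) : Prop :=
  (∀ U ∈ 𝒰, IsOpen U) ∧ ⋃₀ 𝒰 = univ ∧ ∀ K : Set X, IsCompact K → ∃ U ∈ 𝒰, K ⊆ U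

/-- The k-Menger property. -/
def KMenger (X : Type) [TopologicalSpace X] : Prop :=
  ∀ 𝒰 : ℕ → Set (Set X), (∀ n, IsKCover (𝒰 n)) →
    ∃ ℱ : ℕ → Set (Set X), (∀ n, ℱ n ⊆ 𝒰 n ∧ (ℱ n).Finite) ∧ IsKCover (⋃ n, ℱ n)

/-- The k-Rothberger property. -/
def KRothberger (X : Type) [TopologicalSpace X] : Prop :=
  ∀ 𝒰 : ℕ → Set (Set X), (∀ n, IsKCover (𝒰 n)) →
    ∃ U : ℕ → Set X, (∀ n, U n ∈ 𝒰 n) ∧ IsKCover (range U)

/-- P2 has a winning strategy in the finite-selection game on k-covers; the answer in a round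
is a function of the list of all moves of P1 up to that round. -/
def StratKMenger (X : Type) [TopologicalSpace X] : Prop :=
  ∃ σ : List (Set (Set X)) → Set (Set X), ∀ 𝒰 : ℕ → Set (Set X), (∀ n, IsKCover (𝒰 n)) →
    (∀ n, σ ((List.range (n + 1)).map 𝒰) ⊆ 𝒰 n ∧ (σ ((List.range (n + 1)).map 𝒰)).Finite) ∧
      IsKCover (⋃ n, σ ((List.range (n + 1)).map 𝒰))

/-- P2 has a winning strategy in the single-selection game on k-covers. -/
def StratKRothberger (X : Type) [TopologicalSpace X] : Prop :=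
  ∃ σ : List (Set (Set X)) → Set X, ∀ 𝒰 : ℕ → Set (Set X), (∀ n, IsKCover (𝒰 n)) →
    (∀ n, σ ((List.range (n + 1)).map 𝒰) ∈ 𝒰 n) ∧
      IsKCover (range fun n => σ ((List.range (n + 1)).map 𝒰))

lemma StratKMenger.kMenger {X : Type} [TopologicalSpace X] (h : StratKMenger X) : KMenger X := by
  obtain ⟨σ, hσ⟩ := h
  intro 𝒰 h𝒰
  exact ⟨fun n => σ ((List.range (n + 1)).map 𝒰), (hσ 𝒰 h𝒰).1, (hσ 𝒰 h𝒰).2⟩

lemma StratKRothberger.kRothberger {X : Type} [TopologicalSpace X] (h : StratKRothberger X) :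
    KRothberger X := by
  obtain ⟨σ, hσ⟩ := h
  intro 𝒰 h𝒰
  exact ⟨fun n => σ ((List.range (n + 1)).map 𝒰), (hσ 𝒰 h𝒰).1, (hσ 𝒰 h𝒰).2⟩

/-! ### The space -/

/-- The underlying set: the unit interval. -/
def Ex : Type := unitInterval

/-- The topology: a set is open when each of its points has a Euclidean neighbourhood that is
almost contained in the set, up to countably many points. -/
instance instTop : TopologicalSpace Ex where
  IsOpen U := ∀ x : unitInterval, x ∈ (U : Set unitInterval) →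
    ∃ V ∈ 𝓝 x, (V \ (U : Set unitInterval)).Countable
  isOpen_univ := by
    intro x _
    exact ⟨univ, Filter.univ_mem, countable_empty.mono (fun y hy => hy.2 (mem_univ _))⟩
  isOpen_inter U V hU hV := by
    intro x hx
    obtain ⟨A, hA, hA2⟩ := hU x hx.1
    obtain ⟨B, hB, hB2⟩ := hV x hx.2
    refine ⟨A ∩ B, Filter.inter_mem hA hB, (hA2.union hB2).mono ?_⟩
    rintro y ⟨⟨hyA, hyB⟩, hy⟩
    by_cases h : y ∈ (U : Set unitInterval)
    · exact Or.inr ⟨hyB, fun h2 => hy ⟨h, h2⟩⟩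
    · exact Or.inl ⟨hyA, h⟩
  isOpen_sUnion S hS := by
    rintro x ⟨U, hU, hxU⟩
    obtain ⟨A, hA, hA2⟩ := hS U hU x hxU
    refine ⟨A, hA, hA2.mono ?_⟩
    rintro y ⟨hyA, hy⟩
    exact ⟨hyA, fun h => hy ⟨U, hU, h⟩⟩

/-- The identity map to the unit interval. -/
def toI (x : Ex) : unitInterval := x

/-- The identity map from the unit interval. -/
def ofI (x : unitInterval) : Ex := x

lemma isOpen_iff (U : Set Ex) : IsOpen U ↔ ∀ x : unitInterval, ofI x ∈ U →
    ∃ V ∈ 𝓝 x, (V \ (ofI ⁻¹' U)).Countable := Iff.rfl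

lemma continuous_toI : Continuous toI := by
  refine ⟨fun V hV => ?_⟩
  rw [isOpen_iff]
  intro x hx
  refine ⟨V, hV.mem_nhds hx, ?_⟩
  refine countable_empty.mono ?_
  rintro y ⟨hy, hy2⟩
  exact hy2 hy

lemma isClosed_of_countable {C : Set Ex} (hC : C.Countable) : IsClosed C := by
  rw [← isOpen_compl_iff, isOpen_iff]
  intro x _
  refine ⟨univ, Filter.univ_mem, hC.mono ?_⟩
  rintro y ⟨_, hy⟩
  exact not_not.1 hy

instance : T2Space Ex :=
  T2Space.of_injective_continuous (f := toI) (fun _ _ h => h) continuous_toI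

lemma compact_finite {C : Set Ex} (hC : IsCompact C) : C.Finite := by
  by_contra hinf
  have hinf' : C.Infinite := hinf
  set f : ℕ → Ex := fun n => (hinf'.natEmbedding _ n : Ex) with hf
  have hfinj : Function.Injective f := by
    intro m n h
    exact (hinf'.natEmbedding _).injective (Subtype.ext h)
  have hfC : ∀ n, f n ∈ C := fun n => (hinf'.natEmbedding _ n).2
  obtain ⟨n, hn⟩ := hC.elim_directed_cover (fun n : ℕ => (f '' {k | n ≤ k})ᶜ)
    (by
      intro n
      refine (isClosed_of_countable ?_).isOpen_compl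
      exact (countable_range f).mono (image_subset_range _ _))
    (by
      intro t _
      by_cases ht : ∃ k, f k = t
      · obtain ⟨k, rfl⟩ := ht
        refine mem_iUnion.2 ⟨k + 1, ?_⟩
        rintro ⟨j, hj, h2⟩
        have := hfinj h2
        have h4 : k + 1 ≤ j := hj
        omega
      · refine mem_iUnion.2 ⟨0, ?_⟩
        rintro ⟨j, _, h2⟩
        exact ht ⟨j, h2⟩)
    (by
      apply directed_of_isDirected_le
      intro n m hnm
      apply compl_subset_compl.2
      apply image_mono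
      intro k hk
      exact le_trans hnm hk)
  exact hn (hfC n) ⟨n, le_refl n, rfl⟩

lemma uncountable_univ : ¬ (univ : Set Ex).Countable := by
  intro h
  have h1 : (Subtype.val '' (univ : Set unitInterval) : Set ℝ).Countable :=
    Countable.image (s := (univ : Set unitInterval)) h _
  rw [image_univ, Subtype.range_coe] at h1
  have h2 := (h1.measure_zero MeasureTheory.volume)
  simp at h2

/-! ### P2 wins the finite-selection game -/

lemma exists_step (𝒰 : Set (Set Ex)) (E : Set Ex) (k : ℕ) : ∃ (ℱ : Set (Set Ex)) (C : Set Ex),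
    (IsKCover 𝒰 → E.Finite → ℱ ⊆ 𝒰 ∧ ℱ.Finite ∧ C.Countable ∧
      ∀ s : Fin k → Ex, (∀ i, s i ∉ C) → ∃ U ∈ ℱ, E ⊆ U ∧ ∀ i, s i ∈ U) := by
  by_cases h : IsKCover 𝒰 ∧ E.Finite
  swap
  · exact ⟨∅, ∅, fun h1 h2 => absurd ⟨h1, h2⟩ h⟩
  obtain ⟨h𝒰, hE⟩ := h
  have hch : ∀ s : Fin k → unitInterval, ∃ U ∈ 𝒰, E ⊆ U ∧ ∀ i, ofI (s i) ∈ U := by
    intro s
    obtain ⟨U, hU, hU2⟩ := h𝒰.2.2 (E ∪ range (fun i => ofI (s i)))
      ((hE.union (finite_range _)).isCompact)
    exact ⟨U, hU, fun x hx => hU2 (Or.inl hx), fun i => hU2 (Or.inr ⟨i, rfl⟩)⟩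
  choose U hU hEU hsU using hch
  have hV : ∀ (s : Fin k → unitInterval) (i : Fin k), ∃ V ∈ 𝓝 (s i),
      (V \ (ofI ⁻¹' (U s))).Countable := fun s i =>
    (isOpen_iff (U s)).1 (h𝒰.1 _ (hU s)) (s i) (hsU s i)
  choose V hVn hVc using hV
  obtain ⟨t, -, ht⟩ := (isCompact_univ (X := Fin k → unitInterval)).elim_nhds_subcover
    (fun s => Set.pi univ (V s)) (fun s _ => set_pi_mem_nhds finite_univ (fun i _ => hVn s i))
  refine ⟨U '' t, ⋃ s ∈ t, ⋃ i, (ofI '' (V s i \ (ofI ⁻¹' (U s)))), fun _ _ => ⟨?_, ?_, ?_, ?_⟩⟩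
  · rintro _ ⟨s, _, rfl⟩
    exact hU s
  · exact t.finite_toSet.image U
  · exact t.countable_toSet.biUnion (fun s _ => countable_iUnion (fun i => (hVc s i).image _))
  · intro s hs
    have h1 : (fun i => toI (s i)) ∈ ⋃ s ∈ t, Set.pi univ (V s) := ht (mem_univ _)
    simp only [mem_iUnion, exists_prop] at h1
    obtain ⟨r, hr, hr2⟩ := h1
    refine ⟨U r, ⟨r, hr, rfl⟩, hEU r, ?_⟩
    intro i
    by_contra hi
    apply hs i
    exact mem_biUnion hr (mem_iUnion.2 ⟨i, ⟨toI (s i), ⟨hr2 i (mem_univ i), hi⟩, rfl⟩⟩)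

lemma exists_enum (C : Set Ex) : ∃ f : ℕ → Ex, C.Countable → C ⊆ range f := by
  by_cases h : C.Countable ∧ C.Nonempty
  · obtain ⟨f, hf⟩ := h.1.exists_eq_range h.2
    exact ⟨f, fun _ => hf.subset⟩
  · refine ⟨fun _ => ofI 0, fun hC => ?_⟩
    have : C = ∅ := by
      by_contra hne
      exact h ⟨hC, nonempty_iff_ne_empty.2 hne⟩
    rw [this]
    exact empty_subset _

lemma stratKMenger : StratKMenger Ex := by
  choose 𝔉 ℭ hstep using exists_step
  choose enum henum using exists_enum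
  -- the finite set of exceptional points handled in the next round
  set E : List (Set Ex) → Set Ex := fun cs => {x | ∃ C ∈ cs, ∃ j < cs.length, x = enum C j}
    with hEdef
  have hEfin : ∀ cs, (E cs).Finite := by
    intro cs
    have : E cs ⊆ ⋃ C ∈ {C | C ∈ cs}, (fun j => enum C j) '' {j | j < cs.length} := by
      rintro x ⟨C, hC, j, hj, rfl⟩
      exact mem_biUnion hC ⟨j, hj, rfl⟩
    exact Finite.subset ((List.finite_toSet cs).biUnion (fun C _ => (finite_lt_nat _).image _))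
      this
  set step : List (Set Ex) × Set (Set Ex) → Set (Set Ex) → List (Set Ex) × Set (Set Ex) :=
    fun p 𝒰 => (ℭ 𝒰 (E p.1) p.1.length :: p.1, 𝔉 𝒰 (E p.1) p.1.length) with hstepdef
  refine ⟨fun h => (h.foldl step ([], ∅)).2, ?_⟩
  intro 𝒰 h𝒰
  set st : ℕ → List (Set Ex) × Set (Set Ex) := fun n => ((List.range n).map 𝒰).foldl step ([], ∅)
    with hst
  have hsucc : ∀ n, st (n + 1) = step (st n) (𝒰 n) := by
    intro n
    simp only [hst, List.range_succ, List.map_append, List.foldl_append, List.map_cons,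
      List.map_nil, List.foldl_cons, List.foldl_nil]
  have hlen : ∀ n, (st n).1.length = n := by
    intro n
    induction n with
    | zero => rfl
    | succ n ih =>
      rw [hsucc]
      simp [hstepdef, ih]
  set C : ℕ → Set Ex := fun n => ℭ (𝒰 n) (E (st n).1) n with hC
  set ℱ : ℕ → Set (Set Ex) := fun n => 𝔉 (𝒰 n) (E (st n).1) n with hℱ
  have hst2 : ∀ n, (st (n + 1)).2 = ℱ n := by
    intro n
    rw [hsucc]
    simp only [hstepdef, hℱ]
    rw [hlen]
  have hst1 : ∀ n, (st (n + 1)).1 = C n :: (st n).1 := by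
    intro n
    rw [hsucc]
    simp only [hstepdef, hC]
    rw [hlen]
  have hmem : ∀ m n, m < n → C m ∈ (st n).1 := by
    intro m n hmn
    induction n with
    | zero => omega
    | succ n ih =>
      rw [hst1]
      rcases Nat.lt_succ_iff_lt_or_eq.1 hmn with h | h
      · exact List.mem_cons_of_mem _ (ih h)
      · subst h
        exact List.mem_cons_self
  have hs := fun n => hstep (𝒰 n) (E (st n).1) n (h𝒰 n) (hEfin _)
  have hrew : ∀ n, ((((List.range (n + 1)).map 𝒰).foldl step ([], ∅)).2) = ℱ n := hst2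
  have hCtot : (⋃ n, C n).Countable := countable_iUnion (fun n => (hs n).2.2.1)
  have hkey : ∀ K : Set Ex, K.Finite → ∃ n, ∃ U ∈ ℱ n, K ⊆ U := by
    intro K hK
    obtain ⟨x0, hx0⟩ : ∃ x, x ∉ ⋃ n, C n := by
      by_contra h
      push Not at h
      exact uncountable_univ (hCtot.mono (fun x _ => h x))
    have hev : ∀ x ∈ K ∩ ⋃ n, C n, ∀ᶠ n in Filter.atTop, x ∈ E (st n).1 := by
      rintro x ⟨_, hx⟩
      obtain ⟨m, hm⟩ := mem_iUnion.1 hx
      obtain ⟨j, hj⟩ := henum (C m) (hs m).2.2.1 hm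
      refine Filter.eventually_atTop.2 ⟨max m j + 1, fun n hn => ?_⟩
      have hmn : m < n := lt_of_lt_of_le (Nat.lt_succ_of_le (le_max_left _ _)) hn
      have hjn : j < n := lt_of_lt_of_le (Nat.lt_succ_of_le (le_max_right _ _)) hn
      refine ⟨C m, hmem m n hmn, j, ?_, hj.symm⟩
      rw [hlen]
      exact hjn
    have hev2 := (Filter.eventually_all_finite (hK.inter_of_left _)).2 hev
    have hH : (K \ ⋃ n, C n).Finite := hK.sdiff
    set l : List Ex := hH.toFinset.toList with hl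
    have hlmem : ∀ y, y ∈ l ↔ y ∈ K \ ⋃ n, C n := by
      intro y
      rw [hl, Finset.mem_toList, Set.Finite.mem_toFinset]
    obtain ⟨n, hn1, hn2⟩ := (hev2.and (Filter.eventually_ge_atTop l.length)).exists
    obtain ⟨U, hU, hEU, hsU⟩ := (hs n).2.2.2 (fun i => l.getD i x0) (by
      intro i hi
      have hx : l.getD i x0 ∉ ⋃ n, C n := by
        by_cases hil : (i : ℕ) < l.length
        · rw [List.getD_eq_getElem _ _ hil]
          exact ((hlmem _).1 (List.getElem_mem hil)).2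
        · rw [List.getD_eq_default _ _ (not_lt.1 hil)]
          exact hx0
      exact hx (mem_iUnion.2 ⟨n, hi⟩))
    refine ⟨n, U, hU, ?_⟩
    intro y hy
    by_cases hyC : y ∈ ⋃ n, C n
    · exact hEU (hn1 y ⟨hy, hyC⟩)
    · have hyl : y ∈ l := (hlmem y).2 ⟨hy, hyC⟩
      obtain ⟨i, hi, hiy⟩ := List.getElem_of_mem hyl
      have := hsU ⟨i, lt_of_lt_of_le hi hn2⟩
      simp only at this
      rw [List.getD_eq_getElem _ _ hi, hiy] at this
      exact this
  constructor
  · intro n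
    change (((List.range (n + 1)).map 𝒰).foldl step ([], ∅)).2 ⊆ 𝒰 n ∧
      (((List.range (n + 1)).map 𝒰).foldl step ([], ∅)).2.Finite
    rw [hrew]
    exact ⟨(hs n).1, (hs n).2.1⟩
  · have hun : (⋃ n, (((List.range (n + 1)).map 𝒰).foldl step ([], ∅)).2) = ⋃ n, ℱ n := by
      congr 1
      funext n
      exact hrew n
    change IsKCover (⋃ n, (((List.range (n + 1)).map 𝒰).foldl step ([], ∅)).2)
    rw [hun]
    refine ⟨?_, ?_, ?_⟩
    · intro U hU
      obtain ⟨n, hn⟩ := mem_iUnion.1 hU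
      exact (h𝒰 n).1 U ((hs n).1 hn)
    · rw [sUnion_eq_univ_iff]
      intro x
      obtain ⟨n, U, hU, hxU⟩ := hkey {x} (finite_singleton x)
      exact ⟨U, mem_iUnion.2 ⟨n, hU⟩, hxU rfl⟩
    · intro K hK
      obtain ⟨n, U, hU, hKU⟩ := hkey K (compact_finite hK)
      exact ⟨U, mem_iUnion.2 ⟨n, hU⟩, hKU⟩

/-! ### Failure of the k-Rothberger property -/

lemma not_kRothberger : ¬ KRothberger Ex := by
  intro hR
  obtain ⟨ε, hε, hsum⟩ := ENNReal.exists_pos_sum_of_countable' (ε := 1) one_ne_zero ℕ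
  have hcov : ∀ n, ∀ F : Set Ex, F.Finite → ∃ V : Set ℝ, IsOpen V ∧ MeasureTheory.volume V < ε n ∧
      F ⊆ toI ⁻¹' (Subtype.val ⁻¹' V) := by
    intro n F hF
    have h1 : ((fun x : Ex => ((toI x : unitInterval) : ℝ)) '' F).Finite := hF.image _
    have h2 : MeasureTheory.volume ((fun x : Ex => ((toI x : unitInterval) : ℝ)) '' F)
        < ε n := by
      rw [h1.measure_zero]
      exact hε n
    obtain ⟨V, hV1, hV2, hV3⟩ := Set.exists_isOpen_lt_of_lt _ _ h2
    exact ⟨V, hV2, hV3, fun x hx => hV1 ⟨x, hx, rfl⟩⟩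
  obtain ⟨U, hU, hU2⟩ := hR (fun n => {W | ∃ V : Set ℝ, IsOpen V ∧ MeasureTheory.volume V < ε n ∧
      W = toI ⁻¹' (Subtype.val ⁻¹' V)}) (by
    intro n
    refine ⟨?_, ?_, ?_⟩
    · rintro W ⟨V, hV, _, rfl⟩
      exact (hV.preimage continuous_subtype_val).preimage continuous_toI
    · rw [sUnion_eq_univ_iff]
      intro x
      obtain ⟨V, hV, hV2, hV3⟩ := hcov n {x} (finite_singleton x)
      exact ⟨_, ⟨V, hV, hV2, rfl⟩, hV3 rfl⟩
    · intro K hK
      obtain ⟨V, hV, hV2, hV3⟩ := hcov n K (compact_finite hK)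
      exact ⟨_, ⟨V, hV, hV2, rfl⟩, hV3⟩)
  choose V hV hV2 hV3 using hU
  have hsub : Icc (0 : ℝ) 1 ⊆ ⋃ n, V n := by
    intro t ht
    have h1 : ofI (⟨t, ht⟩ : unitInterval) ∈ ⋃₀ (range U) := by
      rw [hU2.2.1]
      exact mem_univ _
    obtain ⟨_, ⟨n, rfl⟩, hn⟩ := h1
    rw [hV3 n] at hn
    exact mem_iUnion.2 ⟨n, hn⟩
  have h1 : MeasureTheory.volume (Icc (0 : ℝ) 1) < 1 := by
    calc MeasureTheory.volume (Icc (0 : ℝ) 1)
        ≤ MeasureTheory.volume (⋃ n, V n) := MeasureTheory.measure_mono hsub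
      _ ≤ ∑' n, MeasureTheory.volume (V n) := MeasureTheory.measure_iUnion_le _
      _ ≤ ∑' n, ε n := ENNReal.tsum_le_tsum (fun n => (hV2 n).le)
      _ < 1 := hsum
  simp at h1

theorem result : ∃ (X : Type) (_ : TopologicalSpace X), T2Space X ∧
    StratKMenger X ∧ KMenger X ∧ ¬ KRothberger X ∧ ¬ StratKRothberger X :=
  ⟨Ex, instTop, inferInstance, stratKMenger, stratKMenger.kMenger, not_kRothberger,
    fun h => not_kRothberger h.kRothberger⟩

end Pool.Agent.Results.MP_c24ba3_gt.IntervalModCountable
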